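import Mathlib
import Pool.Graph.R_seed8.Results.MP_0c20e5_lc.PolGDecomposable

/-!
# MP_0c20e5_lc: decomposable languages and commutative regular languages

Intersections of decomposable languages with commutative regular languages are decomposable. Together with
the decomposability of group languages this gives a class of decomposable languages that contains `Pol(G)`,
the finite unions of products of commutative regular languages, and the languages recognised by direct
products of a finite group and a finite commutative monoid.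
-/

set_option autoImplicit false

open DecompG

namespace Pool.Agent.Results.MP_0c20e5_lc.CommutativeIntersections

/-- A commutative regular language: the inverse image of a set under a morphism of `A*` to a finite
commutative monoid. -/
def IsCommRegular {A : Type} (C : Set (List A)) : Prop :=
  ∃ (M : Type) (_ : CommMonoid M) (_ : Finite M) (φ : FreeMonoid A →* M) (U : Set M),
    C = {w : List A | φ (FreeMonoid.ofList w) ∈ U}

theorem map_cons {A M : Type} [Monoid M] (φ : FreeMonoid A →* M) (a : A) (w : List A) :
    φ (FreeMonoid.ofList (a :: w)) = φ (FreeMonoid.of a) * φ (FreeMonoid.ofList w) := by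
  rw [← map_mul]
  rfl

theorem map_append {A M : Type} [Monoid M] (φ : FreeMonoid A →* M) (u v : List A) :
    φ (FreeMonoid.ofList (u ++ v)) = φ (FreeMonoid.ofList u) * φ (FreeMonoid.ofList v) := by
  rw [← map_mul]
  rfl

/-- The value of a shuffle in a commutative monoid. -/
theorem map_shuffle {A M : Type} [CommMonoid M] (φ : FreeMonoid A →* M) {u v w : List A}
    (h : Shuffle u v w) :
    φ (FreeMonoid.ofList w) = φ (FreeMonoid.ofList u) * φ (FreeMonoid.ofList v) := by
  rw [shuffle_iff] at h
  induction h with
  | nil =>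
    have : φ (FreeMonoid.ofList ([] : List A)) = 1 := map_one φ
    rw [this, one_mul]
  | left _ ih => rw [map_cons, map_cons, ih, mul_assoc]
  | right _ ih => rw [map_cons, map_cons, ih, mul_left_comm]

/-- the words with value `c` -/
def fib {A M : Type} [Monoid M] (φ : FreeMonoid A →* M) (c : M) : Set (List A) :=
  {w | φ (FreeMonoid.ofList w) = c}

/-- The refined system. -/
def refine' {A M : Type} [Monoid M] (φ : FreeMonoid A →* M) (S : Set (Set (List A))) :
    Set (Set (List A)) :=
  (fun p : Set (List A) × M => p.1 ∩ fib φ p.2) '' (S ×ˢ Set.univ)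

theorem finiteUnion_refine {A M : Type} [Monoid M] [Finite M] (φ : FreeMonoid A →* M)
    {S : Set (Set (List A))} {R : Set (List A × List A)} (h : FiniteUnionOver S R) (c : M) :
    FiniteUnionOver (refine' φ S)
      {p | p ∈ R ∧ φ (FreeMonoid.ofList p.1) * φ (FreeMonoid.ofList p.2) = c} := by
  obtain ⟨F, hF, hS, rfl⟩ := h
  refine ⟨(fun q : (Set (List A) × Set (List A)) × (M × M) =>
      (q.1.1 ∩ fib φ q.2.1, q.1.2 ∩ fib φ q.2.2)) '' (F ×ˢ {m : M × M | m.1 * m.2 = c}),
      (hF.prod (Set.toFinite _)).image _, ?_, ?_⟩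
  · rintro p ⟨⟨⟨X, Y⟩, ⟨m, n⟩⟩, ⟨hq, -⟩, rfl⟩
    have := hS _ hq
    exact ⟨⟨(X, m), ⟨this.1, trivial⟩, rfl⟩, ⟨(Y, n), ⟨this.2, trivial⟩, rfl⟩⟩
  · ext ⟨u, v⟩
    constructor
    · rintro ⟨huv, hc⟩
      rw [Set.mem_iUnion₂] at huv
      obtain ⟨⟨X, Y⟩, hXY, hu, hv⟩ := huv
      rw [Set.mem_iUnion₂]
      exact ⟨_, ⟨((X, Y), (φ (FreeMonoid.ofList u), φ (FreeMonoid.ofList v))), ⟨hXY, hc⟩, rfl⟩,
        ⟨hu, rfl⟩, ⟨hv, rfl⟩⟩
    · intro h
      rw [Set.mem_iUnion₂] at h
      obtain ⟨_, ⟨⟨⟨X, Y⟩, ⟨m, n⟩⟩, ⟨hq, hmn⟩, rfl⟩, ⟨hu, hm⟩, ⟨hv, hn⟩⟩ := h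
      refine ⟨Set.mem_iUnion₂.2 ⟨(X, Y), hq, hu, hv⟩, ?_⟩
      have hm' : φ (FreeMonoid.ofList u) = m := hm
      have hn' : φ (FreeMonoid.ofList v) = n := hn
      rw [hm', hn']
      exact hmn

theorem isSystem_refine {A M : Type} [CommMonoid M] [Finite M] (φ : FreeMonoid A →* M)
    {S : Set (Set (List A))} (hS : IsSystem S) : IsSystem (refine' φ S) := by
  refine ⟨(hS.finite.prod Set.finite_univ).image _, ?_, ?_⟩
  · rintro _ ⟨⟨K, c⟩, ⟨hK, -⟩, rfl⟩
    have h := finiteUnion_refine φ (hS.seq K hK) c
    convert h using 1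
    ext ⟨u, v⟩
    simp only [tau, fib, Set.mem_inter_iff, Set.mem_ofPred_eq, map_append]
  · rintro _ ⟨⟨K, c⟩, ⟨hK, -⟩, rfl⟩
    have h := finiteUnion_refine φ (hS.par K hK) c
    convert h using 1
    ext ⟨u, v⟩
    constructor
    · rintro ⟨w, ⟨hwK, hwc⟩, hs⟩
      refine ⟨⟨w, hwK, hs⟩, ?_⟩
      rw [← map_shuffle φ hs]
      exact hwc
    · rintro ⟨⟨w, hwK, hs⟩, hc⟩
      refine ⟨w, ⟨hwK, ?_⟩, hs⟩
      change φ (FreeMonoid.ofList w) = c
      rw [map_shuffle φ hs]
      exact hc

/-- **Decomposable languages are closed under intersection with commutative regular languages.** -/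
theorem inter_commRegular {A : Type} {K C : Set (List A)} (hK : Decomposable K)
    (hC : IsCommRegular C) : Decomposable (K ∩ C) := by
  obtain ⟨M, _, _, φ, U, rfl⟩ := hC
  obtain ⟨S, hS, hKS⟩ := hK
  have h1 : K ∩ {w : List A | φ (FreeMonoid.ofList w) ∈ U} = ⋃₀ ((fun c => K ∩ fib φ c) '' U) := by
    ext w
    constructor
    · rintro ⟨hwK, hwU⟩
      exact ⟨_, ⟨_, hwU, rfl⟩, hwK, rfl⟩
    · rintro ⟨_, ⟨c, hc, rfl⟩, hwK, hwc⟩
      refine ⟨hwK, ?_⟩
      have hwc' : φ (FreeMonoid.ofList w) = c := hwc
      change φ (FreeMonoid.ofList w) ∈ U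
      rw [hwc']
      exact hc
  rw [h1]
  apply decomposable_sUnion (Set.toFinite _)
  rintro _ ⟨c, -, rfl⟩
  exact ⟨refine' φ S, isSystem_refine φ hS, ⟨(K, c), ⟨hKS, trivial⟩, rfl⟩⟩

/-! ### Quotients -/

/-- The left quotient `X⁻¹K`. -/
def leftQuotient {A : Type} (X K : Set (List A)) : Set (List A) := {v | ∃ u ∈ X, u ++ v ∈ K}

/-- The right quotient `KX⁻¹`. -/
def rightQuotient {A : Type} (X K : Set (List A)) : Set (List A) := {u | ∃ v ∈ X, u ++ v ∈ K}

/-- The shuffle quotient: the words `v` such that some shuffle of `v` with a word of `X` is in `K`. -/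
def shuffleQuotient {A : Type} (X K : Set (List A)) : Set (List A) :=
  {v | ∃ u ∈ X, ∃ w ∈ K, Shuffle u v w}

theorem section_decomposable {A : Type} {S : Set (Set (List A))} (hS : IsSystem S)
    {R : Set (List A × List A)} (h : FiniteUnionOver S R) (X : Set (List A)) :
    Decomposable {v | ∃ u ∈ X, (u, v) ∈ R} ∧ Decomposable {u | ∃ v ∈ X, (u, v) ∈ R} := by
  obtain ⟨F, hF, hFS, rfl⟩ := h
  constructor
  · have h1 : {v | ∃ u ∈ X, (u, v) ∈ ⋃ p ∈ F, p.1 ×ˢ p.2} =
        ⋃₀ ((fun p : Set (List A) × Set (List A) => p.2) '' {p ∈ F | (X ∩ p.1).Nonempty}) := by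
      ext v
      constructor
      · rintro ⟨u, hu, huv⟩
        rw [Set.mem_iUnion₂] at huv
        obtain ⟨p, hp, h1, h2⟩ := huv
        exact ⟨p.2, ⟨p, ⟨hp, ⟨u, hu, h1⟩⟩, rfl⟩, h2⟩
      · rintro ⟨_, ⟨p, ⟨hp, ⟨u, hu, h1⟩⟩, rfl⟩, h2⟩
        exact ⟨u, hu, Set.mem_iUnion₂.2 ⟨p, hp, h1, h2⟩⟩
    rw [h1]
    apply decomposable_sUnion ((hF.subset (Set.sep_subset _ _)).image _)
    rintro _ ⟨p, ⟨hp, -⟩, rfl⟩
    exact ⟨S, hS, (hFS p hp).2⟩
  · have h1 : {u | ∃ v ∈ X, (u, v) ∈ ⋃ p ∈ F, p.1 ×ˢ p.2} =
        ⋃₀ ((fun p : Set (List A) × Set (List A) => p.1) '' {p ∈ F | (X ∩ p.2).Nonempty}) := by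
      ext u
      constructor
      · rintro ⟨v, hv, huv⟩
        rw [Set.mem_iUnion₂] at huv
        obtain ⟨p, hp, h1, h2⟩ := huv
        exact ⟨p.1, ⟨p, ⟨hp, ⟨v, hv, h2⟩⟩, rfl⟩, h1⟩
      · rintro ⟨_, ⟨p, ⟨hp, ⟨v, hv, h2⟩⟩, rfl⟩, h1⟩
        exact ⟨v, hv, Set.mem_iUnion₂.2 ⟨p, hp, h1, h2⟩⟩
    rw [h1]
    apply decomposable_sUnion ((hF.subset (Set.sep_subset _ _)).image _)
    rintro _ ⟨p, ⟨hp, -⟩, rfl⟩
    exact ⟨S, hS, (hFS p hp).1⟩

theorem quotients {A : Type} {K : Set (List A)} (hK : Decomposable K) (X : Set (List A)) :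
    Decomposable (leftQuotient X K) ∧ Decomposable (rightQuotient X K) ∧
      Decomposable (shuffleQuotient X K) := by
  obtain ⟨S, hS, hKS⟩ := hK
  have h1 := section_decomposable hS (hS.seq K hKS) X
  have h2 := section_decomposable hS (hS.par K hKS) X
  exact ⟨h1.1, h1.2, h2.1⟩

/-! ### The class -/

/-- The smallest class of languages over the alphabet `A` that contains the group languages and the languages
`{a}`, `a ∈ A`, and is closed under unions, products, intersections with commutative regular languages, and
left, right and shuffle quotients by arbitrary languages. -/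
inductive Generated {A : Type} : Set (List A) → Prop
  | group {L : Set (List A)} : IsGroupLanguage L → Generated L
  | letter (a : A) : Generated {[a]}
  | union {K L : Set (List A)} : Generated K → Generated L → Generated (K ∪ L)
  | prod {K L : Set (List A)} : Generated K → Generated L → Generated (prodLang K L)
  | inter {K C : Set (List A)} : Generated K → IsCommRegular C → Generated (K ∩ C)
  | leftQuot {K : Set (List A)} (X : Set (List A)) : Generated K → Generated (leftQuotient X K)
  | rightQuot {K : Set (List A)} (X : Set (List A)) : Generated K → Generated (rightQuotient X K)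
  | shuffleQuot {K : Set (List A)} (X : Set (List A)) :
      Generated K → Generated (shuffleQuotient X K)

theorem group_decomposable {A : Type} {L : Set (List A)} (hL : IsGroupLanguage L) :
    Decomposable L := by
  refine polG_decomposable_of_finite_index ?_ L ⟨{L}, Set.finite_singleton _, ?_, by simp⟩
  · intro G _ _
    classical
    have := Fintype.ofFinite G
    obtain ⟨N, hN, hD⟩ := dom_all (G := G) (fun k F p => Im F k p) (fun k hk => isPiece_im hk)
    exact finite_index hN (fun T hT s q hs hq => hD T (by omega) s q hs hq)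
  · rintro M rfl
    exact IsMonomial.base hL

theorem generated_decomposable {A : Type} {L : Set (List A)} (hL : Generated L) :
    Decomposable L := by
  induction hL with
  | group h => exact group_decomposable h
  | letter a => exact decomposable_singleton a
  | union _ _ ih1 ih2 => exact ih1.union ih2
  | prod _ _ ih1 ih2 => exact ih1.prod ih2
  | inter _ h ih => exact inter_commRegular ih h
  | leftQuot X _ ih => exact (quotients ih X).1
  | rightQuot X _ ih => exact (quotients ih X).2.1
  | shuffleQuot X _ ih => exact (quotients ih X).2.2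

theorem isGroupLanguage_univ {A : Type} : IsGroupLanguage (Set.univ : Set (List A)) :=
  ⟨Unit, inferInstance, inferInstance, 1, Set.univ, by simp⟩

theorem isGroupLanguage_empty {A : Type} : IsGroupLanguage (∅ : Set (List A)) :=
  ⟨Unit, inferInstance, inferInstance, 1, ∅, by simp⟩

theorem generated_sUnion {A : Type} {F : Set (Set (List A))} (hF : F.Finite)
    (H : ∀ M ∈ F, Generated M) : Generated (⋃₀ F) := by
  induction F, hF using Set.Finite.induction_on with
  | empty => simpa using Generated.group isGroupLanguage_empty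
  | @insert K F _ _ ih =>
    rw [Set.sUnion_insert]
    exact (H K (by simp)).union (ih (fun M hM => H M (by simp [hM])))

theorem monomial_generated {A : Type} {M : Set (List A)} (h : IsMonomial M) : Generated M := by
  induction h with
  | base h => exact Generated.group h
  | step a h _ ih => exact (Generated.group h).prod ((Generated.letter a).prod ih)

theorem polG_generated {A : Type} {L : Set (List A)} (hL : PolG L) : Generated L := by
  obtain ⟨F, hF, hM, rfl⟩ := hL
  exact generated_sUnion hF fun M h => monomial_generated (hM M h)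

/-- Languages recognised by a direct product of a finite group and a finite commutative monoid. -/
theorem direct_product {A G M : Type} [Group G] [Finite G] [CommMonoid M] [Finite M]
    (φ : FreeMonoid A →* G × M) (U : Set (G × M)) :
    Generated {w : List A | φ (FreeMonoid.ofList w) ∈ U} := by
  have h1 : {w : List A | φ (FreeMonoid.ofList w) ∈ U} = ⋃₀ ((fun q : G × M =>
      {w : List A | ((MonoidHom.fst G M).comp φ) (FreeMonoid.ofList w) ∈ ({q.1} : Set G)} ∩
      {w : List A | ((MonoidHom.snd G M).comp φ) (FreeMonoid.ofList w) ∈ ({q.2} : Set M)}) '' U) := by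
    ext w
    constructor
    · intro hw
      exact ⟨_, ⟨_, hw, rfl⟩, rfl, rfl⟩
    · rintro ⟨_, ⟨q, hq, rfl⟩, h1, h2⟩
      have h1' : (φ (FreeMonoid.ofList w)).1 = q.1 := h1
      have h2' : (φ (FreeMonoid.ofList w)).2 = q.2 := h2
      have : φ (FreeMonoid.ofList w) = q := Prod.ext h1' h2'
      change φ (FreeMonoid.ofList w) ∈ U
      rw [this]
      exact hq
  rw [h1]
  apply generated_sUnion (Set.toFinite _)
  rintro _ ⟨q, -, rfl⟩
  exact (Generated.group ⟨G, inferInstance, inferInstance, _, _, rfl⟩).inter
    ⟨M, inferInstance, inferInstance, _, _, rfl⟩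

/-- The set `B*` is a commutative regular language. -/
theorem isCommRegular_sub {A : Type} (B : Set A) : IsCommRegular {w : List A | ∀ a ∈ w, a ∈ B} := by
  classical
  refine ⟨ZMod 2, inferInstance, inferInstance,
    FreeMonoid.lift (fun a => if a ∈ B then (1 : ZMod 2) else 0), {1}, ?_⟩
  ext w
  change (∀ a ∈ w, a ∈ B) ↔ FreeMonoid.lift (fun a => if a ∈ B then (1 : ZMod 2) else 0)
    (FreeMonoid.ofList w) = 1
  induction w with
  | nil =>
    have : FreeMonoid.lift (fun a => if a ∈ B then (1 : ZMod 2) else 0)
      (FreeMonoid.ofList ([] : List A)) = 1 := map_one _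
    simp [this]
  | cons a w ih =>
    rw [map_cons, List.forall_mem_cons, ih, FreeMonoid.lift_eval_of]
    by_cases h : a ∈ B
    · simp [h]
    · simp [h]

/-- Group languages over subalphabets. -/
theorem subalphabet {A : Type} (B : Set A) {L : Set (List A)} (hL : Generated L) :
    Generated {w : List A | w ∈ L ∧ ∀ a ∈ w, a ∈ B} :=
  hL.inter (isCommRegular_sub B)

/-- The language consisting of the empty word is generated. -/
theorem generated_nil {A : Type} : Generated ({[]} : Set (List A)) := by
  have h := subalphabet (∅ : Set A) (Generated.group isGroupLanguage_univ)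
  convert h using 1
  ext w
  cases w with
  | nil => simp
  | cons a w =>
    constructor
    · intro h1
      have h2 : a :: w = [] := h1
      simp at h2
    · rintro ⟨-, h1⟩
      exact absurd (h1 a (by simp)) (by simp)

/-- It is not in `Pol(G)`. -/
theorem not_polG_nil {A : Type} [Nonempty A] : ¬ PolG ({[]} : Set (List A)) := by
  rintro ⟨F, -, hM, hF⟩
  have h0 : ([] : List A) ∈ ⋃₀ F := by
    rw [← hF]
    rfl
  obtain ⟨M, hMF, hnil⟩ := h0
  have hsub : M ⊆ {[]} := by
    rw [hF]
    exact Set.subset_sUnion_of_mem hMF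
  have hmono := hM M hMF
  cases hmono with
  | base h =>
    obtain ⟨G, _, _, φ, U, rfl⟩ := h
    obtain ⟨a⟩ := ‹Nonempty A›
    have := Fintype.ofFinite G
    have h1 : List.replicate (Fintype.card G) a ∈ {w : List A | φ (FreeMonoid.ofList w) ∈ U} := by
      change φ (FreeMonoid.ofList (List.replicate (Fintype.card G) a)) ∈ U
      have h2 : ∀ k : ℕ, φ (FreeMonoid.ofList (List.replicate k a)) = φ (FreeMonoid.of a) ^ k := by
        intro k
        induction k with
        | zero => rw [pow_zero]; exact map_one φ
        | succ k ih => rw [List.replicate_succ, map_cons, ih, pow_succ']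
      rw [h2, pow_card_eq_one]
      have h3 : φ (FreeMonoid.ofList ([] : List A)) ∈ U := hnil
      have h4 : φ (FreeMonoid.ofList ([] : List A)) = 1 := map_one φ
      rwa [h4] at h3
    have h2 := hsub h1
    have h3 : Fintype.card G = 0 := by
      have : (List.replicate (Fintype.card G) a) = [] := h2
      simpa using congrArg List.length this
    exact Fintype.card_ne_zero h3
  | step a h h2 =>
    obtain ⟨u, -, v, ⟨x, hx, y, -, rfl⟩, huv⟩ := hnil
    have hx' : x = [a] := hx
    subst hx'
    simp at huv

/-- **Main theorem.** Let `A` be any alphabet (finite or infinite).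
(1) The intersection of a decomposable language with a commutative regular language is decomposable.
(2) All languages of the class `Generated` are decomposable; this class contains the group languages and the
letters, and is closed under unions, products, intersections with commutative regular languages and left,
right and shuffle quotients by arbitrary languages.
(3) The class contains `Pol(G)`; for `A ≠ ∅` it is larger, as it contains the language `{1}`, which is not in
`Pol(G)`.
(4) The class contains all languages recognised by a direct product of a finite group and a finite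
commutative monoid.
(5) With `L` it contains `L ∩ B*`, for every `B ⊆ A`; in particular, the group languages over subalphabets. -/
theorem result (A : Type) :
    (∀ K C : Set (List A), Decomposable K → IsCommRegular C → Decomposable (K ∩ C)) ∧
    (∀ L : Set (List A), Generated L → Decomposable L) ∧
    ((∀ L : Set (List A), PolG L → Generated L) ∧
      (Nonempty A → Generated ({[]} : Set (List A)) ∧ ¬ PolG ({[]} : Set (List A)))) ∧
    (∀ (G M : Type) [Group G] [Finite G] [CommMonoid M] [Finite M]
      (φ : FreeMonoid A →* G × M) (U : Set (G × M)),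
      Generated {w : List A | φ (FreeMonoid.ofList w) ∈ U}) ∧
    (∀ (B : Set A) (L : Set (List A)), Generated L →
      Generated {w : List A | w ∈ L ∧ ∀ a ∈ w, a ∈ B}) :=
  ⟨fun _ _ => inter_commRegular, fun _ => generated_decomposable,
    ⟨fun _ => polG_generated, fun _ => ⟨generated_nil, not_polG_nil⟩⟩,
    fun _ _ _ _ _ _ φ U => direct_product φ U, fun B _ => subalphabet B⟩

end Pool.Agent.Results.MP_0c20e5_lc.CommutativeIntersections
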